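import Mathlib
import Pool.Agent.H58.AC.Fin2

set_option autoImplicit false

/-!
# MP_44a246_nt: the truncated inequality of Vojta over function fields, for varieties of maximal
# Albanese dimension over a constant abelian variety, all reduced divisors and all algebraic points

`F` is a function field of one variable over an algebraically closed field `k` of characteristic
zero. `X` is a smooth projective variety over `F` (not necessarily defined over `k`) which has a
morphism `π` to an abelian variety `A` over `k`, generically finite onto its image (the image may be
a proper subvariety of `A`). `D` is any closed subscheme of `X`, given by homogeneous equations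
`G j = 0`, which is reduced in codimension one; these are all reduced effective divisors, in
particular all divisors with normal crossings (and also subschemes of higher codimension).

The canonical class of `X` is in general not zero, and its height occurs in the theorem: if `T` is
the tangent space of the affine cone of `X` at the point `x` and `n` the dimension of `X`, then
`det T` is `K_X⁻¹ ⊗ O(-(n + 1))`, so the height of `x` with respect to `K_X` is the height of the
Plücker coordinates of `T` minus `n + 1` times the height of `x` (definition `canonicalHeight`).

The inequality is that of the conjecture: `h_K(P) + h_D(P)` is at most the truncated counting function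
`N^(1)_S(D, P)`, in which each place counts once, plus `ε h(P)` plus a constant times the sum of the
degree of `L` and the logarithmic discriminant of `L`, for the points of all finite extensions `L` of
`F`, of unbounded degree, outside a proper closed subset, which does not depend on `S`. For `L = F`
the last term is a constant, as in the conjecture. All heights are those of `L`, that is, `[L : F]`
times the heights of the conjecture.
-/

namespace Pool.Agent.Results.MP_44a246_nt.MaximalAlbaneseDimension

open MvPolynomial FF Pool.Agent.W603.PV Pool.Agent.K1H80.AV Pool.Agent.H58.AC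

section defs

variable {k F L : Type} [Field k] [Field F] [Field L] [Algebra k L] [Algebra F L] {N : ℕ}
  {ι : Type}

/-- The minimum of the orders of the nonzero entries of `x` at the place `P`. -/
noncomputable def minOrd (P : Place k L) (x : ι → L) : ℤ :=
  ⨅ c : {c // x c ≠ 0}, P.ord (x c.1)

variable (k) in
/-- The height of the point with the homogeneous coordinates `x`: minus the sum over all places of
the minimum of the orders of the coordinates. -/
noncomputable def height (x : ι → L) : ℤ := -∑ᶠ P : Place k L, minOrd P x

/-- The Plücker coordinates of the subspace of `L^N` with the basis `t 0, …, t n`: the minors of the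
matrix with the rows `t 0, …, t n`. -/
noncomputable def plucker {n : ℕ} (t : Fin (n + 1) → Fin N → L) (s : Fin (n + 1) → Fin N) : L :=
  (Matrix.of fun i j => t i (s j)).det

variable (k) in
/-- The height with respect to the canonical class, at the point `x` of a variety of dimension `n`
whose affine cone has at `x` the tangent space with the basis `t 0, …, t n`. -/
noncomputable def canonicalHeight {n : ℕ} (x : Fin N → L) (t : Fin (n + 1) → Fin N → L) : ℤ :=
  height k (plucker t) - (n + 1) * height k x

/-- The local height at `P` with respect to the subscheme with the equations `G j = 0`, `G j` of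
degree `d j`: the minimum of the orders of `G j`, computed with coordinates of minimal order zero. -/
noncomputable def localHeight {w : ℕ} (G : Fin w → MvPolynomial (Fin N) F) (d : Fin w → ℕ)
    (P : Place k L) (x : Fin N → L) : ℤ :=
  ⨅ j : {j // aeval x (G j) ≠ 0}, (P.ord (aeval x (G j.1)) - d j.1 * minOrd P x)

variable (k) in
/-- The height `h_D(x)`: the sum of all local heights. -/
noncomputable def divisorHeight {w : ℕ} (G : Fin w → MvPolynomial (Fin N) F) (d : Fin w → ℕ)
    (x : Fin N → L) : ℤ :=
  ∑ᶠ P : Place k L, localHeight G d P x

/-- The truncated counting function `N^(1)_S(D, x)`: the number of the places of `L`, not over a place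
in `S`, at which the local height of `x` with respect to `D` is positive. -/
noncomputable def truncatedCounting [Algebra k F] [IsScalarTower k F L] [IsAlgClosed k]
    [CharZero k] [IsFF k F] [IsFF k L] {w : ℕ} (G : Fin w → MvPolynomial (Fin N) F)
    (d : Fin w → ℕ) (S : Finset (Place k F)) (x : Fin N → L) : ℕ :=
  {P : Place k L | under F P ∉ S ∧ 0 < localHeight G d P x}.ncard

end defs

/-- **Main theorem.** Let `F` be a function field of one variable over an algebraically closed field
`k` of characteristic zero, `X` a smooth projective variety over `F`, `π` a morphism from `X` to an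
abelian variety `A` over `k`, generically finite onto its image, `D` a subscheme of `X` which is
reduced in codimension one and `ε > 0`. There is a form `f` over `F` which does not vanish on `X`,
and for each finite set `S` of places of `F` there is a constant `C`, such that for all finite
extensions `L` of `F` and all points `P` of `X` over `L` with `f(P) ≠ 0` and outside `D` the truncated
inequality of Vojta
`h_K(P) + h_D(P) ≤ N^(1)_S(D, P) + ε h(P) + C ([L : F] + disc(L / F))` holds. -/
theorem result {k F : Type} [Field k] [IsAlgClosed k] [CharZero k] [Field F] [Algebra k F]
    [IsFF k F] {M N w : ℕ} (X : SmoothVariety F M) (A : AbelianVariety k N) (π : Morphism k X A)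
    (hπ : π.IsGenericallyFinite) (G : Fin w → MvPolynomial (Fin M) F)
    (d : Fin w → ℕ) (hG : ∀ j, (G j).IsHomogeneous (d j)) (hD : X.IsReducedInCodimOne G)
    (ε : ℝ) (hε : 0 < ε) :
    ∃ (f : MvPolynomial (Fin M) F) (m : ℕ), f.IsHomogeneous m ∧ X.NonVanishing f ∧
      ∀ S : Finset (Place k F), ∃ C : ℝ,
      ∀ (L : Type) [Field L] [Algebra k L] [Algebra F L] [IsScalarTower k F L]
        [FiniteDimensional F L] [IsFF k L] (x : Fin M → L) (t : Fin (X.dim + 1) → Fin M → L),
        IsCoord X.eqn x → LinearIndependent L t → (∀ i, t i ∈ tangent X.eqn x) →
        aeval x f ≠ 0 → (∃ j, aeval x (G j) ≠ 0) →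
          (canonicalHeight k x t : ℝ) + divisorHeight k G d x ≤
            truncatedCounting G d S x + ε * height k x + C * (Module.finrank F L + disc k F L) := by
  classical
  obtain ⟨f, m, C, hf1, hf2, hmain⟩ := acMain (k := k) (F := F) X A π hπ G d hG hD ε hε
  refine ⟨f, m, hf1, hf2, fun S => ?_⟩
  set c0 : ℤ := ∑ v ∈ S, Pool.Agent.W603.LV.hgt k (Pool.Agent.W603.LV.unif v) with hc0
  have hc0' : 0 ≤ c0 := Finset.sum_nonneg fun v _ => Pool.Agent.W603.LV.hgt_nonneg _
  refine ⟨C + c0, ?_⟩
  intro L _ _ _ _ _ _ x t hxA ht htt hf hx
  have h2 : (canonicalHeight k x t : ℝ) + divisorHeight k G d x ≤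
      ({P : Place k L | 0 < localHeight G d P x}.ncard : ℝ) +
        ε * height k x + C * (Module.finrank F L + disc k F L) := by
    have h1 := hmain L x t hxA ht htt hf hx
    rw [Int.cast_add] at h1
    exact h1
  -- the places over `S`
  have h4 : {P : Place k L | 0 < localHeight G d P x} ⊆
      {P : Place k L | under F P ∉ S ∧ 0 < localHeight G d P x} ∪
        {P : Place k L | under F P ∈ S} := by
    intro P hP
    by_cases h : under F P ∈ S
    · exact Or.inr h
    · exact Or.inl ⟨h, hP⟩
  have hx0 : ∃ c, x c ≠ 0 := by
    obtain ⟨c, hc⟩ := hxA.1
    exact ⟨c, hc.ne_zero⟩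
  have hfin : {P : Place k L | 0 < localHeight G d P x}.Finite := by
    refine (Pool.Agent.Y731.FG.locH_finite (k := k) (d := d) hx0 hx).subset ?_
    intro P hP
    exact ne_of_gt hP
  have hfin2 : {P : Place k L | under F P ∈ S}.Finite := finite_over_set (Finset.finite_toSet S)
  have h6 : {P : Place k L | 0 < localHeight G d P x}.ncard ≤
      truncatedCounting G d S x + {P : Place k L | under F P ∈ S}.ncard := by
    refine (Set.ncard_le_ncard h4 ((hfin.subset fun P hP => hP.2).union hfin2)).trans ?_
    exact Set.ncard_union_le _ _
  have h7 : (({P : Place k L | under F P ∈ S}.ncard : ℕ) : ℤ) ≤ Module.finrank F L * c0 :=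
    card_over_le S
  have h8 : ({P : Place k L | 0 < localHeight G d P x}.ncard : ℝ) ≤
      truncatedCounting G d S x + Module.finrank F L * c0 := by
    have h9 : ({P : Place k L | 0 < localHeight G d P x}.ncard : ℝ) ≤
        truncatedCounting G d S x + ({P : Place k L | under F P ∈ S}.ncard : ℝ) := by
      exact_mod_cast h6
    have h10 : ({P : Place k L | under F P ∈ S}.ncard : ℝ) ≤ Module.finrank F L * c0 := by
      exact_mod_cast h7
    linarith
  have h11 : (0 : ℝ) ≤ disc k F L := by
    exact_mod_cast Pool.Agent.Y731.FG.disc_nonneg (k := k) (F := F) (L := L)
  have h13 : (0 : ℝ) ≤ c0 := by exact_mod_cast hc0'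
  have h14 : (C + c0 : ℝ) * (Module.finrank F L + disc k F L) =
      C * (Module.finrank F L + disc k F L) + Module.finrank F L * c0 + c0 * disc k F L := by ring
  have h15 : (0 : ℝ) ≤ c0 * disc k F L := by positivity
  rw [h14]
  linarith

end Pool.Agent.Results.MP_44a246_nt.MaximalAlbaneseDimension
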